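import Mathlib
import Pool.Agent.R161.Bohr.Asm
import Pool.Agent.R141.Bohr.One
import Pool.Agent.R141.Bohr.Wt
import Pool.Agent.R289.Bohr.Ext
import Pool.Agent.R289.Bohr.Model
import Pool.Agent.R310.Bohr.Beta
import Pool.Agent.R310.Bohr.Tr
import Pool.Agent.R339.Bohr.C42i
import Pool.Agent.R339.Bohr.Ch
import Pool.Agent.R339.Bohr.Ker
import Pool.Agent.R339.Bohr.Low
import Pool.Agent.R609.Bohr.Erg
import Pool.Agent.R609.Bohr.Fin
import Pool.Agent.R68.Bohr.Sol
import Pool.Agent.R68.Bohr.Tel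
import Pool.Agent.R706.Bohr.Met
import Pool.Agent.R706.Bohr.Rep
import Pool.Agent.R865.Bohr.C42
import Pool.Agent.R938.Bohr.C41
import Pool.Agent.R971.Bohr.Avg
import Pool.Agent.R971.Bohr.Wm
import Pool.Agent.R161.Bohr.Mean

/-!
Sums of endomorphic images of a set of positive upper Banach density in an arbitrary abelian group
contain Bohr sets of controlled rank and radius (any number `d ≥ 3` of not necessarily commuting
endomorphisms with images of finite index and sum `0`).
-/

set_option autoImplicit false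

namespace Pool.Agent.Results.MP_0fda35_co.BohrSumset

universe u

/-- `f` is a bounded real function on `G`, i.e. an element of `ℓ^∞(G)`. -/
def Bounded {G : Type u} (f : G → ℝ) : Prop := ∃ C : ℝ, ∀ x, |f x| ≤ C

/-- `m` is a translation-invariant mean on `ℓ^∞(G)`: linear, positive, normalised and invariant on
bounded functions (its values on unbounded functions are irrelevant). -/
structure IsInvariantMean {G : Type u} [AddCommGroup G] (m : (G → ℝ) → ℝ) : Prop where
  add : ∀ f g, Bounded f → Bounded g → m (fun x => f x + g x) = m f + m g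
  smul : ∀ (c : ℝ) f, Bounded f → m (fun x => c * f x) = c * m f
  nonneg : ∀ f, Bounded f → (∀ x, 0 ≤ f x) → 0 ≤ m f
  one : m (fun _ => 1) = 1
  inv : ∀ f (s : G), Bounded f → m (fun x => f (x + s)) = m f

/-- The upper Banach density `d*(A)`: the supremum of `m(1_A)` over all invariant means. -/
noncomputable def upperBanachDensity {G : Type u} [AddCommGroup G] (A : Set G) : ℝ :=
  sSup {r : ℝ | ∃ m : (G → ℝ) → ℝ, IsInvariantMean m ∧ r = m (A.indicator fun _ => 1)}

/-- The Bohr set of rank `k` and radius `η` of the characters `χ 0, …, χ (k-1)` of `G`. -/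
def BohrSet {G : Type u} [AddCommGroup G] {k : ℕ} (χ : Fin k → AddChar G Circle) (η : ℝ) : Set G :=
  {g | ∀ i, ‖(χ i g : ℂ) - 1‖ < η}

/-- The set `φ₁(A) + ⋯ + φ_d(A)`. -/
def imageSum {G : Type u} [AddCommGroup G] {d : ℕ} (φ : Fin d → G →+ G) (A : Set G) : Set G :=
  {g | ∃ a : Fin d → G, (∀ j, a j ∈ A) ∧ g = ∑ j, φ j (a j)}

theorem isMean_iff {G : Type u} [AddCommGroup G] (m : (G → ℝ) → ℝ) :
    R161.Bohr.IsMean m ↔ IsInvariantMean m :=
  ⟨fun h => ⟨h.add, h.smul, h.nonneg, h.one, h.inv⟩, fun h => ⟨h.add, h.smul, h.nonneg, h.one, h.inv⟩⟩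

theorem density_eq {G : Type u} [AddCommGroup G] (A : Set G) :
    R161.Bohr.upperBanach A = upperBanachDensity A := by
  unfold R161.Bohr.upperBanach upperBanachDensity
  congr 1
  ext r
  constructor
  · rintro ⟨m, hm, hr⟩
    exact ⟨m, (isMean_iff m).1 hm, hr⟩
  · rintro ⟨m, hm, hr⟩
    exact ⟨m, (isMean_iff m).2 hm, hr⟩

/-- **Bohr sets in sums of endomorphic images of a dense set.** For every `d ≥ 3`, `N` and `δ > 0`
there are a rank `k` and a radius `η > 0` such that for every abelian group `G`, all endomorphisms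
`φ₁, …, φ_d` of `G` with images of finite index at most `N` and `φ₁ + ⋯ + φ_d = 0`, and every
`A ⊆ G` with `d*(A) ≥ δ`, the set `φ₁(A) + ⋯ + φ_d(A)` contains a Bohr set of rank `k` and radius
`η`. -/
theorem result : ∀ (d N : ℕ), 3 ≤ d → ∀ δ : ℝ, 0 < δ → ∃ (k : ℕ) (η : ℝ), 0 < η ∧
    ∀ (G : Type u) [AddCommGroup G] (φ : Fin d → G →+ G),
      (∀ j, (φ j).range.index ≠ 0 ∧ (φ j).range.index ≤ N) → (∀ a, ∑ j, φ j a = 0) →
      ∀ A : Set G, δ ≤ upperBanachDensity A →
        ∃ χ : Fin k → AddChar G Circle, BohrSet χ η ⊆ imageSum φ A := by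
  have hch := R339.Bohr.s_ch.{u}
  have hext := R339.Bohr.s_chext.{u}
  have hmet := R706.Bohr.s_met.{u}
  have herg := R609.Bohr.s_erg hmet
  have hfin := R609.Bohr.s_fin herg hch
  have hmodel := R289.Bohr.s_model.{u}
  have hrep := R706.Bohr.s_rep.{u}
  have havg := R971.Bohr.s_avg hmodel hmet hfin hch
  have hwm := R971.Bohr.s_wm hmodel hrep herg
  have hc41 := R938.Bohr.s_c41 hch
  have hc42i := R339.Bohr.s_c42i hch
  have hc42 := R865.Bohr.s_c42 hc41 hc42i
  have hker := R339.Bohr.s_ker.{u}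
  have hbeta := R310.Bohr.s_beta hker
  have hwt := R141.Bohr.s_wt hker
  have hmain := R141.Bohr.s_main.{u}
  have htel := R68.Bohr.s_tel hwt
  have hone := R141.Bohr.s_one hbeta hwt hmain htel
  have hlow := R339.Bohr.s_low hone
  have htr := R310.Bohr.s_tr hext
  have hsol := R68.Bohr.s_sol R161.Bohr.s_mean.{u}
  have hfinal := R161.Bohr.s_final R289.Bohr.s_ext.{u} hsol havg hwm hc42 hlow htr hch
  intro d N hd δ hδ
  obtain ⟨k, η, hη, h⟩ := hfinal d N hd δ hδ
  refine ⟨k, η, hη, ?_⟩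
  intro G _ φ hidx hsum A hA
  obtain ⟨χ, hχ⟩ := h G φ hidx hsum A (by rw [density_eq]; exact hA)
  exact ⟨χ, fun g hg => hχ g hg⟩

end Pool.Agent.Results.MP_0fda35_co.BohrSumset
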